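import Pool.Agent.Q113.RT6

/-!
# The power of `x` dividing the Tutte polynomial of a rooted graph

A rooted graph has vertices `V`, edges `E` (loops and multiple edges allowed) with end vertices
`ends e`, and a root `r`. An edge set is feasible if it is the edge set of a tree containing the root.
`T(G;x,y) = ∑_A (x-1)^(rk E - rk A) (y-1)^(|A| - rk A)` is the Tutte polynomial of this greedoid.

Result: for every rooted graph the exponent of the highest power of `x` dividing `T(G;x,y)` is the
number of vertices `v` other than the root such that exactly one edge that is not a loop is incident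
with `v`, and this edge joins `v` to the root. Hence for every rooted graph without loops it is the
number of leaves incident to the root. If loops are allowed, and a loop counts for the degree, then
the statement fails for the trivial reason that a loop at a leaf changes its degree.

Proof outline. With `R(A)` the set of vertices reached by `A`, summing over `S = R(A)` gives
`T = y^j ∑_S (x-1)^(|K \ S|) C_S(y) y^(e(K \ S))`, where `C_S(1+t)` counts the connected edge sets of
`S`. Each root leaf splits off a factor `x`. It remains to see that the sum at `x = 0` is a nonzero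
polynomial in `y` if there is no root leaf. One works with vertex weights `τ_v` (reached) and `ω_v`
(not reached), at first `1` and `-1`. A part of the graph attached to the rest at one vertex `c` is
replaced by new weights of `c`, for which `ω_c` is `± y^k` and `τ_c` has degree less than `k`;
a vertex with `τ_v = 0` is deleted. If no such reduction is possible, one divides the weights by
powers of `y` and lets `y` tend to `0`: by deletion and contraction at the root (one of the two
keeps the structure needed, as in Tutte's theorem for 2-connected graphs) the limit, or, if all the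
weights are `1` and `-1`, the coefficient of `y`, is positive.
-/

set_option autoImplicit false

open Finset Polynomial
open scoped Classical

namespace Pool.Agent.Results.MP_4c49f5_co.PowersOfX

section
variable {V E : Type} [Fintype V] [Fintype E] (ends : E → Sym2 V)

/-- `u` and `v` are the ends of an edge of `A` -/
def Adjacent (A : Finset E) (u v : V) : Prop := ∃ e ∈ A, ends e = s(u, v)

/-- the vertices that can be reached from `r` along edges of `A` -/
noncomputable def reached (r : V) (A : Finset E) : Finset V :=
  univ.filter (fun v => Relation.ReflTransGen (Adjacent ends A) r v)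

/-- `A` is the edge set of a tree that contains the root `r`: all its edges lie in the component of
the root, and this component has one vertex more than `A` has edges. -/
def Feasible (r : V) (A : Finset E) : Prop :=
  (∀ e ∈ A, ∀ x ∈ ends e, x ∈ reached ends r A) ∧ (reached ends r A).card = A.card + 1

/-- the rank of an edge set: the largest size of a feasible subset -/
noncomputable def rank (r : V) (A : Finset E) : ℕ :=
  (A.powerset.filter (fun B => Feasible ends r B)).sup card

/-- the Tutte polynomial of the rooted graph, an element of `ℤ[y][x]`: `x` is the variable `X` and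
`y` is the constant `C X` -/
noncomputable def tuttePoly (r : V) : ℤ[X][X] :=
  ∑ A : Finset E,
    (X - 1) ^ (rank ends r univ - rank ends r A) * (C X - 1) ^ (A.card - rank ends r A)

/-- the degree of a vertex, a loop counting twice -/
noncomputable def degree (v : V) : ℕ :=
  (univ.filter (fun e => v ∈ ends e)).card + (univ.filter (fun e => ends e = s(v, v))).card

/-- the leaves incident to the root: vertices of degree 1 that are adjacent to the root -/
noncomputable def leaves (r : V) : Finset V :=
  univ.filter (fun v => v ≠ r ∧ degree ends v = 1 ∧ ∃ e, ends e = s(v, r))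

/-- the same with loops disregarded: exactly one edge that is not a loop is incident with `v`, and
`v` is joined to the root -/
noncomputable def leavesUpToLoops (r : V) : Finset V :=
  univ.filter (fun v => v ≠ r ∧
    (univ.filter (fun e => ¬ (ends e).IsDiag ∧ v ∈ ends e)).card = 1 ∧ ∃ e, ends e = s(v, r))

end

lemma exact {V E : Type} [Fintype V] [Fintype E] (ends : E → Sym2 V) (r : V) :
    X ^ (leavesUpToLoops ends r).card ∣ tuttePoly ends r ∧
      ¬ X ^ ((leavesUpToLoops ends r).card + 1) ∣ tuttePoly ends r :=
  Pool.Agent.Q113.RT.exact_power (ends := ends) r

lemma leaves_eq {V E : Type} [Fintype V] [Fintype E] (ends : E → Sym2 V) (r : V)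
    (h : ∀ e, ¬ (ends e).IsDiag) : leaves ends r = leavesUpToLoops ends r := by
  unfold leaves leavesUpToLoops degree
  ext v
  rw [mem_filter, mem_filter]
  have h1 : univ.filter (fun e => ¬ (ends e).IsDiag ∧ v ∈ ends e) =
      univ.filter (fun e => v ∈ ends e) := by
    ext e
    rw [mem_filter, mem_filter]
    exact ⟨fun h => ⟨h.1, h.2.2⟩, fun h2 => ⟨h2.1, h e, h2.2⟩⟩
  have h2 : univ.filter (fun e => ends e = s(v, v)) = ∅ := by
    rw [filter_eq_empty_iff]
    intro e _ he
    apply h e
    rw [he]; simp
  rw [h1, h2, card_empty, add_zero]

lemma not_mem_leaves_of_loop {V E : Type} [Fintype V] [Fintype E] (ends : E → Sym2 V) (r v : V)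
    (e0 : E) (h : ends e0 = s(v, v)) : v ∉ leaves ends r := by
  intro hv
  unfold leaves degree at hv
  rw [mem_filter] at hv
  have h1 : 0 < (univ.filter (fun e => v ∈ ends e)).card :=
    card_pos.mpr ⟨e0, mem_filter.mpr ⟨mem_univ _, by rw [h]; simp⟩⟩
  have h2 : 0 < (univ.filter (fun e => ends e = s(v, v))).card :=
    card_pos.mpr ⟨e0, mem_filter.mpr ⟨mem_univ _, h⟩⟩
  omega

lemma root_not_mem_leaves {V E : Type} [Fintype V] [Fintype E] (ends : E → Sym2 V) (r : V) :
    r ∉ leaves ends r := by
  unfold leaves
  rw [mem_filter]
  exact fun h => h.2.1 rfl

lemma mem_upToLoops {V E : Type} [Fintype V] [Fintype E] (ends : E → Sym2 V) (r v : V)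
    (hv : v ≠ r) (e0 : E) (h : ends e0 = s(v, r))
    (h2 : ∀ e, ¬ (ends e).IsDiag → v ∈ ends e → e = e0) : v ∈ leavesUpToLoops ends r := by
  unfold leavesUpToLoops
  rw [mem_filter]
  refine ⟨mem_univ _, hv, ?_, e0, h⟩
  rw [card_eq_one]
  refine ⟨e0, ?_⟩
  ext e
  rw [mem_filter, mem_singleton]
  constructor
  · rintro ⟨_, h3, h4⟩
    exact h2 e h3 h4
  · rintro rfl
    refine ⟨mem_univ _, ?_, ?_⟩
    · rw [h, Sym2.mk_isDiag_iff]; exact hv
    · rw [h]; simp

lemma root_not_mem_upToLoops {V E : Type} [Fintype V] [Fintype E] (ends : E → Sym2 V) (r : V) :
    r ∉ leavesUpToLoops ends r := by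
  unfold leavesUpToLoops
  rw [mem_filter]
  exact fun h => h.2.1 rfl

/-- a graph with an edge from the root to `1` and a loop at `1` -/
def loopExample : Fin 2 → Sym2 (Fin 2) := fun i => if i = 0 then s(1, 0) else s(1, 1)

lemma loop_example : leaves loopExample 0 = ∅ ∧ (X : ℤ[X][X]) ∣ tuttePoly loopExample 0 := by
  have e0 : loopExample 0 = s(1, 0) := rfl
  have e1 : loopExample 1 = s(1, 1) := rfl
  constructor
  · rw [eq_empty_iff_forall_notMem]
    intro v hv
    have hv0 : v ≠ 0 := fun h => root_not_mem_leaves loopExample 0 (h ▸ hv)
    have hv1 : v = 1 := by omega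
    subst hv1
    exact not_mem_leaves_of_loop loopExample 0 1 1 e1 hv
  · have h := (exact loopExample 0).1
    have h2 : leavesUpToLoops loopExample 0 = {1} := by
      apply Subset.antisymm
      · intro v hv
        rw [mem_singleton]
        have hv0 : v ≠ 0 := fun h => root_not_mem_upToLoops loopExample 0 (h ▸ hv)
        omega
      · rw [singleton_subset_iff]
        refine mem_upToLoops loopExample 0 1 (by decide) 0 e0 ?_
        intro e h3 _
        by_contra he
        have : e = 1 := by omega
        subst this
        apply h3
        rw [e1, Sym2.mk_isDiag_iff]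
    rw [h2, card_singleton, pow_one] at h
    exact h

/-- **The power of `x` in the Tutte polynomial of a rooted graph.** (1) For every rooted graph the
exponent of the highest power of `x` dividing the Tutte polynomial is the number of vertices `v ≠ r`
with exactly one incident edge that is not a loop, this edge joining `v` to the root `r`. (2) For a
rooted graph without loops it is the number of leaves incident to the root. (3) For the rooted graph
with vertices `0, 1`, root `0`, an edge from `0` to `1` and a loop at `1`, no leaf is incident to the
root and `x` divides the Tutte polynomial. -/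
theorem result :
    (∀ (V E : Type) [Fintype V] [Fintype E] (ends : E → Sym2 V) (r : V),
      X ^ (leavesUpToLoops ends r).card ∣ tuttePoly ends r ∧
        ¬ X ^ ((leavesUpToLoops ends r).card + 1) ∣ tuttePoly ends r) ∧
    (∀ (V E : Type) [Fintype V] [Fintype E] (ends : E → Sym2 V) (r : V),
      (∀ e, ¬ (ends e).IsDiag) →
      X ^ (leaves ends r).card ∣ tuttePoly ends r ∧
        ¬ X ^ ((leaves ends r).card + 1) ∣ tuttePoly ends r) ∧
    (leaves loopExample 0 = ∅ ∧ (X : ℤ[X][X]) ∣ tuttePoly loopExample 0) := by
  refine ⟨fun V E _ _ ends r => exact ends r, fun V E _ _ ends r h => ?_, loop_example⟩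
  rw [leaves_eq ends r h]
  exact exact ends r

end Pool.Agent.Results.MP_4c49f5_co.PowersOfX
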